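import Pool.Agent.Q189.PV.Val

/-!
# Waring's function and the values of a polynomial
-/

set_option autoImplicit false

open Finset Filter Polynomial

namespace Pool.Agent.Q189.PV

open Pool.Agent.Q110.GW (IsSum DenseIntervals)

theorem card_le (k s m X : ℕ) (hX : X < (m + 1) ^ k) (T : Finset ℕ)
    (hT : ∀ n ∈ T, n ≤ X ∧ IsSum k s n) : #T ≤ (m + 1) ^ s := by
  classical
  have h : T ⊆ (univ : Finset (Fin s → Fin (m + 1))).image (fun y => ∑ i, (y i : ℕ) ^ k) := by
    intro n hn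
    obtain ⟨h1, y, hy⟩ := hT n hn
    have hyi : ∀ i, y i < m + 1 := by
      intro i
      by_contra hcon
      push Not at hcon
      have h2 : (m + 1) ^ k ≤ y i ^ k := Nat.pow_le_pow_left hcon k
      have h3 : y i ^ k ≤ ∑ i, y i ^ k :=
        single_le_sum (f := fun i => y i ^ k) (fun _ _ => Nat.zero_le _) (mem_univ i)
      omega
    exact mem_image.2 ⟨fun i => ⟨y i, hyi i⟩, mem_univ _, hy⟩
  refine (Finset.card_le_card h).trans (card_image_le.trans ?_)
  simp

theorem fibers (P : ℤ[X]) (hP : 1 ≤ P.natDegree) (T A : Finset ℕ)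
    (h : ∀ m ∈ A, ∃ n ∈ T, (n : ℤ) = P.eval (m : ℤ)) : #A ≤ #T * P.natDegree := by
  classical
  have h1 : A ⊆ T.biUnion (fun n => A.filter (fun m : ℕ => (n : ℤ) = P.eval (m : ℤ))) := by
    intro m hm
    obtain ⟨n, hn, h2⟩ := h m hm
    rw [mem_biUnion]
    exact ⟨n, hn, mem_filter.2 ⟨hm, h2⟩⟩
  refine (Finset.card_le_card h1).trans (card_biUnion_le_card_mul _ _ _ fun n _ => ?_)
  have hne : P - C (n : ℤ) ≠ 0 := by
    intro h0
    have h2 := natDegree_sub_C (p := P) (a := (n : ℤ))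
    rw [h0, natDegree_zero] at h2
    omega
  have h2 : (A.filter (fun m : ℕ => (n : ℤ) = P.eval (m : ℤ))).image (fun m : ℕ => (m : ℤ)) ⊆
      (P - C (n : ℤ)).roots.toFinset := by
    intro z hz
    obtain ⟨m, hm, rfl⟩ := mem_image.1 hz
    rw [Multiset.mem_toFinset, mem_roots hne, IsRoot, eval_sub, eval_C, (mem_filter.1 hm).2, sub_self]
  calc #(A.filter (fun m : ℕ => (n : ℤ) = P.eval (m : ℤ)))
      = #((A.filter (fun m : ℕ => (n : ℤ) = P.eval (m : ℤ))).image (fun m : ℕ => (m : ℤ))) :=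
        (card_image_of_injective _ Nat.cast_injective).symm
    _ ≤ #((P - C (n : ℤ)).roots.toFinset) := Finset.card_le_card h2
    _ ≤ (P - C (n : ℤ)).roots.card := Multiset.toFinset_card_le _
    _ ≤ (P - C (n : ℤ)).natDegree := card_roots' _
    _ = P.natDegree := natDegree_sub_C

theorem H_pos (P : ℤ[X]) (hP : 1 ≤ P.natDegree) : 1 ≤ H P := by
  have h1 : P.coeff P.natDegree ≠ 0 := by
    intro h
    have h2 : P = 0 := leadingCoeff_eq_zero.1 h
    rw [h2, natDegree_zero] at hP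
    omega
  have h2 : (P.coeff P.natDegree).natAbs ≤ H P :=
    single_le_sum (f := fun i => (P.coeff i).natAbs) (fun _ _ => Nat.zero_le _)
      (mem_range.2 (Nat.lt_succ_self _))
  have h3 : 1 ≤ (P.coeff P.natDegree).natAbs := Nat.one_le_iff_ne_zero.2 (Int.natAbs_ne_zero.2 h1)
  omega

theorem ge (P : ℤ[X]) (hP : 1 ≤ P.natDegree) (k s C : ℕ) (hk : 2 ≤ k) (h : ManyValues P k s C) :
    k ≤ P.natDegree * s := by
  classical
  by_contra hcon
  push Not at hcon
  obtain ⟨N₀, h⟩ := h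
  set d := P.natDegree with hd
  have hH := H_pos P hP
  set B := H P * (C * d) ^ d * 2 ^ (k - 1) + 2 with hB
  obtain ⟨L, hL1, hL2, hL3⟩ := h (N₀ + (B + 1) ^ k) (by omega)
  have hL0 : (B + 1) ^ k ≤ L := by omega
  have hL : 1 ≤ L := le_trans (Nat.one_le_pow _ _ (by omega)) hL0
  set X := H P * L ^ d with hX
  have hLX : L ≤ X := by
    calc L ≤ L ^ d := Nat.le_self_pow (by omega) _
      _ = 1 * L ^ d := (one_mul _).symm
      _ ≤ X := Nat.mul_le_mul_right _ hH
  set m := Nat.findGreatest (fun m => m ^ k ≤ X) X with hm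
  have hm1 : m ^ k ≤ X :=
    Nat.findGreatest_spec (P := fun m => m ^ k ≤ X) (m := 0) (n := X) (Nat.zero_le _)
      (by simp only [zero_pow (by omega : k ≠ 0)]; omega)
  have hm2 : X < (m + 1) ^ k := by
    by_contra hc
    push Not at hc
    have h1 : m + 1 ≤ X := le_trans (Nat.le_self_pow (by omega) _) hc
    have := Nat.le_findGreatest (P := fun m => m ^ k ≤ X) h1 hc
    omega
  have hm3 : B + 1 ≤ m + 1 := by
    by_contra hc
    push Not at hc
    have : (m + 1) ^ k ≤ (B + 1) ^ k := Nat.pow_le_pow_left (by omega) k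
    omega
  have hcard : valueCount P k s L ≤ (m + 1) ^ s * d := by
    unfold valueCount
    refine (fibers P hP ((range (X + 1)).filter (fun n => IsSum k s n)) _ ?_).trans
      (Nat.mul_le_mul_right _ (card_le k s m X hm2 _ ?_))
    · intro j hj
      obtain ⟨hj1, n, hn1, hn2⟩ := mem_filter.1 hj
      rw [mem_Icc] at hj1
      exact ⟨n, mem_filter.2 ⟨mem_range.2 (Nat.lt_succ_of_le
        (val_le_nat P j L n hj1.2 hL hn1)), hn2⟩, hn1⟩
    · intro n hn
      rw [mem_filter, mem_range] at hn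
      exact ⟨by omega, hn.2⟩
  have h1 : L ≤ (C * d) * (m + 1) ^ s := by
    calc L ≤ C * valueCount P k s L := hL3
      _ ≤ C * ((m + 1) ^ s * d) := Nat.mul_le_mul_left _ hcard
      _ = _ := by ring
  have h2 : L ^ d ≤ (C * d) ^ d * (2 ^ (k - 1) * m ^ (k - 1)) := by
    calc L ^ d ≤ ((C * d) * (m + 1) ^ s) ^ d := Nat.pow_le_pow_left h1 d
      _ = (C * d) ^ d * (m + 1) ^ (d * s) := by rw [mul_pow, ← pow_mul, mul_comm s d]
      _ ≤ (C * d) ^ d * (m + 1) ^ (k - 1) :=
          Nat.mul_le_mul_left _ (Nat.pow_le_pow_right (by omega) (by omega))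
      _ ≤ (C * d) ^ d * (2 * m) ^ (k - 1) :=
          Nat.mul_le_mul_left _ (Nat.pow_le_pow_left (by omega) _)
      _ = _ := by rw [mul_pow 2 m (k - 1)]
  have h3 : m * m ^ (k - 1) ≤ (H P * (C * d) ^ d * 2 ^ (k - 1)) * m ^ (k - 1) := by
    calc m * m ^ (k - 1) = m ^ k := by
          rw [← pow_succ']
          congr 1
          omega
      _ ≤ H P * L ^ d := hm1
      _ ≤ H P * ((C * d) ^ d * (2 ^ (k - 1) * m ^ (k - 1))) := Nat.mul_le_mul_left _ h2
      _ = _ := by ring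
  have h4 := Nat.le_of_mul_le_mul_right h3 (Nat.pow_pos (by omega))
  omega

/-- **The criterion.** -/
theorem main (P : ℤ[X]) (hP : 1 ≤ P.natDegree) : ∃ F : ℕ → ℕ, ∀ k s C : ℕ, 2 ≤ k →
    ManyValues P k s C → k ≤ P.natDegree * s ∧ ∃ N₁ : ℕ, ∀ n ≥ N₁, IsSum k (F C * s) n := by
  obtain ⟨t, F, hF⟩ := dense P hP
  refine ⟨fun C => 4 * F C * (t + 1) + 2 * P.natDegree * (F C + 1), fun k s C hk h => ?_⟩
  have hks := ge P hP k s C hk h
  obtain ⟨N₁, h1⟩ := Pool.Agent.Q110.GW.criterion k (t * s) (F C) hk (hF k s C h)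
  refine ⟨hks, N₁, fun n hn => (h1 n hn).mono (by omega) ?_⟩
  have h2 : 1 ≤ s := by
    rcases Nat.eq_zero_or_pos s with rfl | h2
    · omega
    · exact h2
  calc 4 * F C * (t * s + 1) + 2 * k * (F C + 1)
      ≤ 4 * F C * ((t + 1) * s) + 2 * (P.natDegree * s) * (F C + 1) := by
        apply Nat.add_le_add
        · apply Nat.mul_le_mul_left
          rw [add_mul, one_mul]
          omega
        · apply Nat.mul_le_mul_right
          omega
    _ = _ := by ring

theorem ManyValues.mono {P : ℤ[X]} {k s t C D : ℕ} (hk : k ≠ 0) (h : ManyValues P k s C) (hst : s ≤ t)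
    (hCD : C ≤ D) : ManyValues P k t D := by
  classical
  obtain ⟨N₀, h⟩ := h
  refine ⟨N₀ + 1, fun N hN => ?_⟩
  obtain ⟨L, h1, h2, h3⟩ := h N (by omega)
  refine ⟨L, h1, h2.trans (Nat.pow_le_pow_right (by omega) hCD), h3.trans (Nat.mul_le_mul hCD ?_)⟩
  unfold valueCount
  apply Finset.card_le_card
  intro m hm
  obtain ⟨hm1, n, hn1, hn2⟩ := mem_filter.1 hm
  exact mem_filter.2 ⟨hm1, n, hn1, hn2.mono hk hst⟩

theorem many_of_all {P : ℤ[X]} {k s m₀ : ℕ} (h : ∀ m ≥ m₀, ValueIsSum P k s m) : ManyValues P k s 2 := by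
  classical
  refine ⟨2 * m₀ + 2, fun N hN => ⟨N, le_rfl, Nat.le_self_pow (by omega) _, ?_⟩⟩
  have h1 : #(Icc (m₀ + 1) N) ≤ valueCount P k s N := by
    unfold valueCount
    apply Finset.card_le_card
    intro m hm
    rw [mem_Icc] at hm
    exact mem_filter.2 ⟨mem_Icc.2 ⟨by omega, hm.2⟩, h m (by omega)⟩
  rw [Nat.card_Icc] at h1
  omega

theorem large_values (P : ℤ[X]) (hP : 1 ≤ P.natDegree) (hl : 0 < P.leadingCoeff) (N₁ : ℕ) :
    ∃ m₀ : ℕ, ∀ m ≥ m₀, ∃ n : ℕ, N₁ ≤ n ∧ (n : ℤ) = P.eval (m : ℤ) := by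
  have hinj : Function.Injective (Int.castRingHom ℝ) := Int.cast_injective
  have h1 : Tendsto (fun x : ℝ => (P.map (Int.castRingHom ℝ)).eval x) atTop atTop := by
    apply tendsto_atTop_of_leadingCoeff_nonneg
    · rw [degree_map_eq_of_injective hinj, ← natDegree_pos_iff_degree_pos]
      omega
    · rw [leadingCoeff_map_of_injective hinj]
      simp only [eq_intCast]
      exact_mod_cast hl.le
  have h2 := h1.comp (tendsto_natCast_atTop_atTop (R := ℝ))
  obtain ⟨m₀, h3⟩ := eventually_atTop.1 (h2.eventually_ge_atTop (N₁ : ℝ))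
  refine ⟨m₀, fun m hm => ?_⟩
  have h4 := h3 m hm
  simp only [Function.comp] at h4
  rw [eval_natCast_map] at h4
  simp only [eq_intCast] at h4
  have h5 : (N₁ : ℤ) ≤ P.eval (m : ℤ) := by exact_mod_cast h4
  refine ⟨(P.eval (m : ℤ)).toNat, by omega, by omega⟩

end Pool.Agent.Q189.PV
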