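import Pool.Agent.Q189.PV.Main
import Pool.Agent.Q110.GW.Local
import Pool.Agent.H141R2.FS.Three

/-!
# Squares and fourth powers suffice, with explicit constants
-/

set_option autoImplicit false

open Finset

namespace Pool.Agent.Q189.PV

open Pool.Agent.Q110.GW (IsSum)

/-- `n` is a sum of `h` terms each of which is zero or an element of `B` -/
def SumOf (B : Set ℕ) (h n : ℕ) : Prop :=
  ∃ x : Fin h → ℕ, (∀ i, x i = 0 ∨ x i ∈ B) ∧ ∑ i, x i = n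

theorem SumOf.add {B : Set ℕ} {h h' n n' : ℕ} (H : SumOf B h n) (H' : SumOf B h' n') :
    SumOf B (h + h') (n + n') := by
  obtain ⟨x, hx, rfl⟩ := H
  obtain ⟨y, hy, rfl⟩ := H'
  refine ⟨Fin.append x y, fun i => ?_, ?_⟩
  · refine Fin.addCases (fun j => ?_) (fun j => ?_) i
    · rw [Fin.append_left]
      exact hx j
    · rw [Fin.append_right]
      exact hy j
  · rw [Fin.sum_univ_add]
    simp only [Fin.append_left, Fin.append_right]

theorem SumOf.single {B : Set ℕ} {n : ℕ} (h : n ∈ B) : SumOf B 1 n :=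
  ⟨fun _ => n, fun _ => Or.inr h, by simp⟩

/-- **The transfer principle.** -/
theorem transfer (k s h b M a N₀ : ℕ) (hk : k ≠ 0) (hb : 2 ≤ b) (hM : 1 ≤ M) (B : Set ℕ)
    (hB : ∀ x ∈ B, b * x ∈ B) (hsum : ∀ z, SumOf B h (a + M * z))
    (hall : ∀ x ∈ B, N₀ ≤ x → IsSum k s x) :
    ∃ N₁ : ℕ, ∀ n ≥ N₁, IsSum k (h * s + 8 * k) n := by
  set q := b ^ N₀ with hq
  have hqN : N₀ ≤ q := (Nat.lt_pow_self (by omega : 1 < b)).le
  have hq1 : 1 ≤ q := Nat.one_le_pow _ _ (by omega)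
  have hD : 0 < q * M := Nat.mul_pos hq1 hM
  have hqB : ∀ j : ℕ, ∀ x ∈ B, b ^ j * x ∈ B := by
    intro j
    induction j with
    | zero =>
      intro x hx
      simpa using hx
    | succ j ih =>
      intro x hx
      have e : b ^ (j + 1) * x = b * (b ^ j * x) := by ring
      rw [e]
      exact hB _ (ih x hx)
  refine ⟨8 * k * (q * M) ^ k + q * a, fun n hn => ?_⟩
  obtain ⟨y, hy1, hy2⟩ := Pool.Agent.Q110.GW.local_nat k hk (q * M) hD
    ((n : ZMod (q * M)) - ((q * a : ℕ) : ZMod (q * M)))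
  set r := ∑ i, y i ^ k with hr
  have hr1 : r ≤ 8 * k * (q * M) ^ k := by
    calc r ≤ ∑ _i : Fin (8 * k), (q * M) ^ k :=
          sum_le_sum fun i _ => Nat.pow_le_pow_left (hy1 i).le k
      _ = _ := by simp
  have h1 : ((r + q * a : ℕ) : ZMod (q * M)) = (n : ZMod (q * M)) := by
    rw [Nat.cast_add, hy2]
    ring
  have h2 : r + q * a ≤ n := by omega
  have h3 : q * M ∣ n - (r + q * a) := by
    rw [ZMod.natCast_eq_natCast_iff] at h1
    exact (Nat.modEq_iff_dvd' h2).1 h1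
  obtain ⟨z, hz⟩ := h3
  obtain ⟨x, hx, hxs⟩ := hsum z
  have h4 : IsSum k (h * s) (∑ i, q * x i) := by
    apply isSum_sum
    intro i
    rcases Nat.eq_zero_or_pos (x i) with h0 | h0
    · rw [h0, mul_zero]
      exact Pool.Agent.Q110.GW.isSum_zero hk s
    · rcases hx i with h5 | h5
      · omega
      · apply hall _ (hqB N₀ _ h5)
        calc N₀ ≤ q := hqN
          _ = q * 1 := (mul_one _).symm
          _ ≤ q * x i := Nat.mul_le_mul_left _ h0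
  have h5 : IsSum k (8 * k) r := ⟨y, rfl⟩
  have h6 := h4.add h5
  have e : ∑ i, q * x i + r = n := by
    rw [← mul_sum, hxs]
    have e1 : q * (a + M * z) = q * a + q * M * z := by ring
    rw [e1]
    omega
  rwa [e] at h6

theorem transfer_squares (k s q m₀ : ℕ) (hk : 2 ≤ k) (hq : 1 ≤ q)
    (h : ∀ m ≥ m₀, IsSum k s ((q * m) ^ 2)) : ∃ N₁ : ℕ, ∀ n ≥ N₁, IsSum k (3 * s + 8 * k) n := by
  apply transfer k s 3 4 (4 * q ^ 2) (q ^ 2) ((q * m₀) ^ 2 + 1) (by omega) (by norm_num)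
    (Nat.mul_pos (by norm_num) (Nat.pow_pos hq)) {x | ∃ m, x = (q * m) ^ 2}
  · rintro x ⟨m, rfl⟩
    exact ⟨2 * m, by ring⟩
  · intro z
    obtain ⟨u, v, w, h1⟩ := Pool.Agent.H141R2.FS.three_squares_one (m := 1 + 4 * z) (by omega)
    have hs : ∀ t : ℤ, SumOf {x | ∃ m, x = (q * m) ^ 2} 1 ((q * t.natAbs) ^ 2) :=
      fun t => SumOf.single ⟨t.natAbs, rfl⟩
    have h2 := ((hs u).add (hs v)).add (hs w)
    have e : (q * u.natAbs) ^ 2 + (q * v.natAbs) ^ 2 + (q * w.natAbs) ^ 2 = q ^ 2 + 4 * q ^ 2 * z := by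
      zify
      rw [mul_pow, mul_pow, mul_pow, sq_abs, sq_abs, sq_abs, ← mul_add, ← mul_add, h1]
      push_cast
      ring
    rwa [e] at h2
  · rintro x ⟨m, rfl⟩ hx
    apply h m
    by_contra hc
    push Not at hc
    have : (q * m) ^ 2 ≤ (q * m₀) ^ 2 := Nat.pow_le_pow_left (Nat.mul_le_mul_left _ hc.le) 2
    omega

/-- Liouville's identity -/
theorem liouville (q : ℕ) (t : ℤ) :
    SumOf {x | ∃ m, x = (q * m) ^ 4} 12 (6 * q ^ 4 * t.natAbs ^ 2) := by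
  obtain ⟨a, b, c, d, h⟩ := Nat.sum_four_squares t.natAbs
  have hs : ∀ z : ℤ, SumOf {x | ∃ m, x = (q * m) ^ 4} 1 ((q * z.natAbs) ^ 4) :=
    fun z => SumOf.single ⟨z.natAbs, rfl⟩
  have hp : ∀ x y : ℤ, SumOf {x | ∃ m, x = (q * m) ^ 4} 2
      ((q * (x + y).natAbs) ^ 4 + (q * (x - y).natAbs) ^ 4) := fun x y => (hs _).add (hs _)
  have h1 := (((((hp a b).add (hp a c)).add (hp a d)).add (hp b c)).add (hp b d)).add (hp c d)
  have h4 : ∀ z : ℤ, (((q * z.natAbs) ^ 4 : ℕ) : ℤ) = (q : ℤ) ^ 4 * z ^ 4 := by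
    intro z
    push_cast
    rw [mul_pow]
    congr 1
    exact Even.pow_abs ⟨2, rfl⟩ z
  have e : 6 * q ^ 4 * t.natAbs ^ 2 =
      (q * ((a : ℤ) + b).natAbs) ^ 4 + (q * ((a : ℤ) - b).natAbs) ^ 4 +
      ((q * ((a : ℤ) + c).natAbs) ^ 4 + (q * ((a : ℤ) - c).natAbs) ^ 4) +
      ((q * ((a : ℤ) + d).natAbs) ^ 4 + (q * ((a : ℤ) - d).natAbs) ^ 4) +
      ((q * ((b : ℤ) + c).natAbs) ^ 4 + (q * ((b : ℤ) - c).natAbs) ^ 4) +
      ((q * ((b : ℤ) + d).natAbs) ^ 4 + (q * ((b : ℤ) - d).natAbs) ^ 4) +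
      ((q * ((c : ℤ) + d).natAbs) ^ 4 + (q * ((c : ℤ) - d).natAbs) ^ 4) := by
    have e1 : ((6 * q ^ 4 * t.natAbs ^ 2 : ℕ) : ℤ) =
        6 * (q : ℤ) ^ 4 * ((a : ℤ) ^ 2 + b ^ 2 + c ^ 2 + d ^ 2) ^ 2 := by
      rw [← h]
      push_cast
      ring
    apply Nat.cast_injective (R := ℤ)
    rw [e1]
    simp only [Nat.cast_add, h4]
    ring
  rw [e]
  exact h1

theorem transfer_fourth (k s q m₀ : ℕ) (hk : 2 ≤ k) (hq : 1 ≤ q)
    (h : ∀ m ≥ m₀, IsSum k s ((q * m) ^ 4)) : ∃ N₁ : ℕ, ∀ n ≥ N₁, IsSum k (36 * s + 8 * k) n := by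
  apply transfer k s 36 16 (24 * q ^ 4) (6 * q ^ 4) ((q * m₀) ^ 4 + 1) (by omega) (by norm_num)
    (Nat.mul_pos (by norm_num) (Nat.pow_pos hq)) {x | ∃ m, x = (q * m) ^ 4}
  · rintro x ⟨m, rfl⟩
    exact ⟨2 * m, by ring⟩
  · intro z
    obtain ⟨u, v, w, h1⟩ := Pool.Agent.H141R2.FS.three_squares_one (m := 1 + 4 * z) (by omega)
    have h2 := ((liouville q u).add (liouville q v)).add (liouville q w)
    have e : 6 * q ^ 4 * u.natAbs ^ 2 + 6 * q ^ 4 * v.natAbs ^ 2 + 6 * q ^ 4 * w.natAbs ^ 2 =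
        6 * q ^ 4 + 24 * q ^ 4 * z := by
      zify
      rw [sq_abs, sq_abs, sq_abs, ← mul_add, ← mul_add, h1]
      push_cast
      ring
    rwa [e] at h2
  · rintro x ⟨m, rfl⟩ hx
    apply h m
    by_contra hc
    push Not at hc
    have : (q * m) ^ 4 ≤ (q * m₀) ^ 4 := Nat.pow_le_pow_left (Nat.mul_le_mul_left _ hc.le) 4
    omega

open Polynomial in
theorem ge_power (k s q r m₀ : ℕ) (hk : 2 ≤ k) (hq : 1 ≤ q) (hr : 1 ≤ r)
    (h : ∀ m ≥ m₀, IsSum k s ((q * m) ^ r)) : k ≤ r * s := by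
  have hd : (C ((q : ℤ) ^ r) * X ^ r : ℤ[X]).natDegree = r := by
    apply natDegree_C_mul_X_pow
    positivity
  have h1 : ManyValues (C ((q : ℤ) ^ r) * X ^ r : ℤ[X]) k s 2 := by
    apply many_of_all (m₀ := m₀)
    intro m hm
    refine ⟨(q * m) ^ r, ?_, h m hm⟩
    simp [mul_pow]
  have h2 := ge _ (by rw [hd]; exact hr) k s 2 hk h1
  rwa [hd] at h2

end Pool.Agent.Q189.PV
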