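import Pool.Agent.Q110.GW.Crit
import Pool.Agent.Y834.CD.Poly

/-!
# Values of polynomials which are sums of few `k`-th powers
-/

set_option autoImplicit false

open Finset Filter Polynomial

namespace Pool.Agent.Q189.PV

open Pool.Agent.Q110.GW (IsSum DenseIntervals)
open Pool.Agent.Y834.CD (en)

/-- the inequality of Cauchy and Schwarz for the sums of `t` members of a family -/
theorem energy_sums {L t : ℕ} (a : Fin L → ℤ) (A : Finset (Fin L)) :
    #A ^ (2 * t) ≤ #((Fintype.piFinset fun _ : Fin t => A).image (fun q => ∑ i, a (q i))) * en t a := by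
  classical
  set D : Finset (Fin t → Fin L) := Fintype.piFinset fun _ : Fin t => A with hD
  set f : (Fin t → Fin L) → ℤ := fun q => ∑ i, a (q i) with hf
  set T := D.image f with hT
  have hcD : #D = #A ^ t := by
    rw [hD, Fintype.card_piFinset]
    simp
  have h1 : #D = ∑ n ∈ T, #(D.filter (fun q => f q = n)) :=
    card_eq_sum_card_image f D
  have h2 : (∑ n ∈ T, #(D.filter (fun q => f q = n))) ^ 2 ≤
      #T * ∑ n ∈ T, #(D.filter (fun q => f q = n)) ^ 2 := by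
    have := sq_sum_le_card_mul_sum_sq (s := T) (f := fun n => (#(D.filter (fun q => f q = n)) : ℤ))
    exact_mod_cast this
  have h3 : ∑ n ∈ T, #(D.filter (fun q => f q = n)) ^ 2 =
      #((D ×ˢ D).filter (fun p => f p.1 = f p.2)) := by
    rw [card_eq_sum_card_fiberwise (f := fun p : (Fin t → Fin L) × (Fin t → Fin L) => f p.1) (t := T)]
    · refine sum_congr rfl fun n hn => ?_
      rw [sq, ← card_product]
      congr 1
      ext p
      simp only [mem_product, mem_filter]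
      constructor
      · rintro ⟨⟨h4, h5⟩, h6, h7⟩
        exact ⟨⟨⟨h4, h6⟩, by rw [h5, h7]⟩, h5⟩
      · rintro ⟨⟨⟨h4, h5⟩, h6⟩, h7⟩
        exact ⟨⟨h4, h7⟩, h5, by rw [← h6, h7]⟩
    · intro p hp
      have h4 := (mem_product.1 (mem_filter.1 hp).1).1
      exact mem_image_of_mem f h4
  have h4 : #((D ×ˢ D).filter (fun p => f p.1 = f p.2)) ≤ en t a := by
    unfold en
    apply card_le_card
    intro p hp
    rw [mem_filter] at hp ⊢
    exact ⟨mem_univ _, hp.2⟩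
  calc #A ^ (2 * t) = #D ^ 2 := by rw [hcD, ← pow_mul, mul_comm]
    _ = (∑ n ∈ T, #(D.filter (fun q => f q = n))) ^ 2 := by rw [← h1]
    _ ≤ _ := h2
    _ = #T * #((D ×ˢ D).filter (fun p => f p.1 = f p.2)) := by rw [h3]
    _ ≤ _ := Nat.mul_le_mul_left _ h4

theorem isSum_sum {k s t : ℕ} (f : Fin t → ℕ) (h : ∀ i, IsSum k s (f i)) :
    IsSum k (t * s) (∑ i, f i) := by
  choose y hy using h
  refine ⟨fun j => y (finProdFinEquiv.symm j).1 (finProdFinEquiv.symm j).2, ?_⟩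
  rw [Fintype.sum_equiv (finProdFinEquiv (m := t) (n := s)).symm _
    (fun z : Fin t × Fin s => y z.1 z.2 ^ k) (fun j => rfl), Fintype.sum_prod_type]
  exact sum_congr rfl fun i _ => hy i

/-- a bound for the values of a polynomial -/
theorem val_le (P : ℤ[X]) (m L : ℕ) (h1 : m ≤ L) (h0 : 1 ≤ L) :
    |P.eval (m : ℤ)| ≤ (∑ i ∈ range (P.natDegree + 1), |P.coeff i|) * (L : ℤ) ^ P.natDegree := by
  rw [eval_eq_sum_range, sum_mul]
  refine (abs_sum_le_sum_abs _ _).trans (sum_le_sum fun i hi => ?_)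
  rw [abs_mul, abs_pow, Nat.abs_cast]
  apply mul_le_mul_of_nonneg_left _ (abs_nonneg _)
  have h2 : (m : ℤ) ^ i ≤ (L : ℤ) ^ i := pow_le_pow_left₀ (by positivity) (by exact_mod_cast h1) i
  have h3 : (L : ℤ) ^ i ≤ (L : ℤ) ^ P.natDegree :=
    pow_le_pow_right₀ (by exact_mod_cast h0) (by rw [mem_range] at hi; omega)
  exact h2.trans h3

/-- the size of the values -/
def H (P : ℤ[X]) : ℕ := ∑ i ∈ range (P.natDegree + 1), (P.coeff i).natAbs

theorem val_le_nat (P : ℤ[X]) (m L n : ℕ) (h1 : m ≤ L) (h0 : 1 ≤ L) (hn : (n : ℤ) = P.eval (m : ℤ)) :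
    n ≤ H P * L ^ P.natDegree := by
  have h2 := val_le P m L h1 h0
  rw [← hn] at h2
  have h3 : ((H P : ℕ) : ℤ) = ∑ i ∈ range (P.natDegree + 1), |P.coeff i| := by
    unfold H
    push_cast
    rfl
  rw [← h3, Nat.abs_cast] at h2
  exact_mod_cast h2

/-- the value `P m` is a nonnegative integer and a sum of `s` `k`-th powers -/
def ValueIsSum (P : ℤ[X]) (k s m : ℕ) : Prop := ∃ n : ℕ, (n : ℤ) = P.eval (m : ℤ) ∧ IsSum k s n

open Classical in
/-- the number of the `m` in `[1, L]` such that `P m` is a sum of `s` `k`-th powers -/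
noncomputable def valueCount (P : ℤ[X]) (k s L : ℕ) : ℕ :=
  ((Icc 1 L).filter (fun m => ValueIsSum P k s m)).card

/-- For all large `N` there is `L` in `[N, N ^ C]` such that for at least `L / C` of the `m` in `[1, L]`
the value `P m` is a sum of `s` `k`-th powers. -/
def ManyValues (P : ℤ[X]) (k s C : ℕ) : Prop :=
  ∃ N₀ : ℕ, ∀ N ≥ N₀, ∃ L : ℕ, N ≤ L ∧ L ≤ N ^ C ∧ L ≤ C * valueCount P k s L

theorem dense (P : ℤ[X]) (hP : 1 ≤ P.natDegree) : ∃ (t : ℕ) (F : ℕ → ℕ), ∀ k s C : ℕ,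
    ManyValues P k s C → DenseIntervals k (t * s) (F C) := by
  classical
  obtain ⟨t, C₁, hC₁, hen⟩ := Pool.Agent.Y834.CD.poly_energy P hP 1 le_rfl
  set d := P.natDegree with hd
  refine ⟨t, fun C => max (C * d + 1) ⌈(t * H P + 1 : ℝ) * C₁ * (C : ℝ) ^ (2 * t)⌉₊,
    fun k s C h => ?_⟩
  obtain ⟨N₀, h⟩ := h
  refine ⟨N₀ + (t * H P + 1), fun N hN => ?_⟩
  obtain ⟨L, hL1, hL2, hL3⟩ := h N (by omega)
  have hL : 1 ≤ L := by omega
  have hLr : (1 : ℝ) ≤ L := by exact_mod_cast hL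
  have hC : 1 ≤ C := by
    rcases Nat.eq_zero_or_pos C with rfl | hC
    · omega
    · exact hC
  set a : Fin L → ℤ := fun m => P.eval (((m : ℕ) + 1 : ℕ) : ℤ) with ha
  set A : Finset (Fin L) := univ.filter (fun i : Fin L => ValueIsSum P k s ((i : ℕ) + 1)) with hA
  have hcA : valueCount P k s L ≤ #A := by
    have hsub : (Icc 1 L).filter (fun m => ValueIsSum P k s m) ⊆ A.image (fun i : Fin L => (i : ℕ) + 1) := by
      intro m hm
      rw [mem_filter, mem_Icc] at hm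
      rw [mem_image]
      refine ⟨⟨m - 1, by omega⟩, ?_, by simp only; omega⟩
      rw [hA, mem_filter]
      refine ⟨mem_univ _, ?_⟩
      have e : m - 1 + 1 = m := by omega
      simp only [e]
      exact hm.2
    unfold valueCount
    exact (card_le_card hsub).trans card_image_le
  set T := (Fintype.piFinset fun _ : Fin t => A).image (fun q => ∑ i, a (q i)) with hT
  have hE := energy_sums (t := t) a A
  rw [← hT] at hE
  have hen' := hen t le_rfl L (L ^ d) hL (Nat.one_le_pow _ _ hL) (by rw [one_mul])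
  -- the sums are sums of `t s` powers
  have hTm : ∀ z ∈ T, ∃ n : ℕ, (n : ℤ) = z ∧ n ≤ t * (H P * L ^ d) ∧ IsSum k (t * s) n := by
    intro z hz
    obtain ⟨q, hq, rfl⟩ := mem_image.1 hz
    rw [Fintype.mem_piFinset] at hq
    have h1 : ∀ i, ValueIsSum P k s ((q i : ℕ) + 1) := fun i => (mem_filter.1 (hq i)).2
    choose n hn1 hn2 using h1
    refine ⟨∑ i, n i, ?_, ?_, isSum_sum n hn2⟩
    · push_cast
      exact sum_congr rfl fun i _ => hn1 i
    · calc ∑ i, n i ≤ ∑ _i : Fin t, H P * L ^ d :=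
            sum_le_sum fun i _ => val_le_nat P _ L _ (by omega) hL (hn1 i)
        _ = _ := by simp
  have hcount : #T ≤ Pool.Agent.Q110.GW.count k (t * s) 0 ((t * H P + 1) * L ^ d) := by
    unfold Pool.Agent.Q110.GW.count
    have hsub : T ⊆ (((Ico 0 (0 + (t * H P + 1) * L ^ d)).filter (fun n => IsSum k (t * s) n)).image
        (fun n : ℕ => (n : ℤ))) := by
      intro z hz
      obtain ⟨n, hn1, hn2, hn3⟩ := hTm z hz
      rw [mem_image]
      refine ⟨n, ?_, hn1⟩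
      rw [mem_filter, mem_Ico]
      refine ⟨⟨Nat.zero_le _, ?_⟩, hn3⟩
      have h1 : 1 ≤ L ^ d := Nat.one_le_pow _ _ hL
      have h2 : (t * H P + 1) * L ^ d = t * (H P * L ^ d) + L ^ d := by ring
      omega
    exact (card_le_card hsub).trans card_image_le
  have hLd : (L : ℝ) ^ d ≤ C₁ * (C : ℝ) ^ (2 * t) * #T := by
    have h1 : (L : ℝ) ≤ C * #A := by
      have : L ≤ C * #A := hL3.trans (Nat.mul_le_mul_left _ hcA)
      exact_mod_cast this
    have h2 : (L : ℝ) ^ (2 * t) ≤ (C : ℝ) ^ (2 * t) * (#A : ℝ) ^ (2 * t) := by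
      rw [← mul_pow]
      exact pow_le_pow_left₀ (by linarith) h1 _
    have h3 : (#A : ℝ) ^ (2 * t) ≤ #T * en t a := by exact_mod_cast hE
    have h4 : (en t a : ℝ) * (L : ℝ) ^ d ≤ C₁ * (L : ℝ) ^ (2 * t) := by
      have := hen'
      push_cast at this
      exact_mod_cast this
    have h5 : (L : ℝ) ^ (2 * t) * (L : ℝ) ^ d ≤
        (L : ℝ) ^ (2 * t) * (C₁ * (C : ℝ) ^ (2 * t) * #T) := by
      calc (L : ℝ) ^ (2 * t) * (L : ℝ) ^ d
          ≤ ((C : ℝ) ^ (2 * t) * (#A : ℝ) ^ (2 * t)) * (L : ℝ) ^ d := by gcongr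
        _ ≤ ((C : ℝ) ^ (2 * t) * (#T * en t a)) * (L : ℝ) ^ d := by gcongr
        _ = (C : ℝ) ^ (2 * t) * #T * (en t a * (L : ℝ) ^ d) := by ring
        _ ≤ (C : ℝ) ^ (2 * t) * #T * (C₁ * (L : ℝ) ^ (2 * t)) := by gcongr
        _ = _ := by ring
    exact le_of_mul_le_mul_left h5 (by positivity)
  refine ⟨0, (t * H P + 1) * L ^ d, ?_, ?_, ?_⟩
  · have h1 : L ≤ L ^ d := Nat.le_self_pow (by omega) _
    have h2 : 1 * L ^ d ≤ (t * H P + 1) * L ^ d := Nat.mul_le_mul_right _ (by omega)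
    omega
  · have h5 : N ^ (C * d + 1) ≤
        N ^ max (C * d + 1) ⌈(t * H P + 1 : ℝ) * C₁ * (C : ℝ) ^ (2 * t)⌉₊ :=
      Nat.pow_le_pow_right (by omega) (le_max_left _ _)
    refine le_trans ?_ h5
    have h6 : L ^ d ≤ N ^ (C * d) := by
      rw [pow_mul]
      exact Nat.pow_le_pow_left hL2 d
    rw [zero_add, pow_succ, mul_comm]
    exact Nat.mul_le_mul h6 (by omega)
  · have h5 : (t * H P + 1 : ℝ) * C₁ * (C : ℝ) ^ (2 * t) ≤
        (max (C * d + 1) ⌈(t * H P + 1 : ℝ) * C₁ * (C : ℝ) ^ (2 * t)⌉₊ : ℕ) :=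
      (Nat.le_ceil _).trans (by exact_mod_cast le_max_right _ _)
    have h7 : (#T : ℝ) ≤ Pool.Agent.Q110.GW.count k (t * s) 0 ((t * H P + 1) * L ^ d) := by
      exact_mod_cast hcount
    have h6 : (((t * H P + 1) * L ^ d : ℕ) : ℝ) ≤
        ((max (C * d + 1) ⌈(t * H P + 1 : ℝ) * C₁ * (C : ℝ) ^ (2 * t)⌉₊ *
          Pool.Agent.Q110.GW.count k (t * s) 0 ((t * H P + 1) * L ^ d) : ℕ) : ℝ) := by
      calc (((t * H P + 1) * L ^ d : ℕ) : ℝ) = (t * H P + 1 : ℝ) * (L : ℝ) ^ d := by push_cast; ring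
        _ ≤ (t * H P + 1 : ℝ) * (C₁ * (C : ℝ) ^ (2 * t) * #T) := by gcongr
        _ = ((t * H P + 1 : ℝ) * C₁ * (C : ℝ) ^ (2 * t)) * #T := by ring
        _ ≤ (max (C * d + 1) ⌈(t * H P + 1 : ℝ) * C₁ * (C : ℝ) ^ (2 * t)⌉₊ : ℕ) *
            Pool.Agent.Q110.GW.count k (t * s) 0 ((t * H P + 1) * L ^ d) :=
          mul_le_mul h5 h7 (Nat.cast_nonneg _) (Nat.cast_nonneg _)
        _ = _ := by push_cast; rfl
    exact_mod_cast h6

end Pool.Agent.Q189.PV
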